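import Pool.Agent.H31.EH.Targets
import Pool.Agent.H31.EST.RIP

/-!
# Row DBL of ehf_modules (MP_e21eee_nt): stars with good halves are good except for a small mass
-/

set_option autoImplicit false

open Finset MeasureTheory

namespace Pool.Agent.H85.EH

open Pool.Agent.H24.CL Pool.Agent.H24.LV Pool.Agent.H26.ES Pool.Agent.H31.EH
open Pool.Agent.H84.LVP (mass_or mass_ex DS_dvd DS_pos)

theorem DS_un {A B : Finset ℕ} (h : Disjoint A B) : DS (A ∪ B) = DS A * DS B := by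
  unfold DS
  exact Finset.prod_union h

/-- sub-grids of sub-grids -/
theorem g_trans (hCO : L_CO) {k : ℕ} {S S' S'' : Finset ℕ} (h1 : S' ⊆ S) (h2 : S'' ⊆ S')
    (hS : ∀ p ∈ S, p.Prime) (b : X k) (x : ℕ) :
    phi (DS S' / DS S'') ((x / (DS S / DS S')) % (DS S' / DS S''))
      (phi (DS S / DS S') (x % (DS S / DS S')) b) =
        phi (DS S / DS S'') (x % (DS S / DS S'')) b ∧
    x / (DS S / DS S') / (DS S' / DS S'') = x / (DS S / DS S'') := by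
  obtain ⟨c, hc⟩ := DS_dvd h1
  obtain ⟨d, hd⟩ := DS_dvd h2
  have hp' : 0 < DS S' := DS_pos fun p hp => hS p (h1 hp)
  have hp'' : 0 < DS S'' := DS_pos fun p hp => hS p (h1 (h2 hp))
  have e1 : DS S / DS S' = c := by
    rw [hc, Nat.mul_div_cancel_left _ hp']
  have e2 : DS S' / DS S'' = d := by
    rw [hd, Nat.mul_div_cancel_left _ hp'']
  have e3 : DS S / DS S'' = c * d := by
    rw [hc, hd, mul_assoc, Nat.mul_div_cancel_left _ hp'', mul_comm]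
  rw [e1, e2, e3]
  refine ⟨?_, Nat.div_div_eq_div_mul x c d⟩
  rw [hCO.1, ← Nat.mod_mul, Nat.mul_comm d c]

/-- the sub-stars of a good star are good -/
theorem good_hered (hCO : L_CO) {k : ℕ} {S S' : Finset ℕ} (h1 : S' ⊆ S) {V : Set (X k)}
    {Ge : ℕ → Set (X k)} {Gd : ℕ → ℕ → Set (X k)} {P m τ Ω : ℝ}
    (hSD : SDatP k S V Ge Gd P m τ Ω) {kap : ℝ} {b : X k} {x : ℕ} (h : Good S V Gd kap b x) :
    Good S' V Gd kap (phi (DS S / DS S') (x % (DS S / DS S')) b) (x / (DS S / DS S')) := by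
  refine ⟨Pool.Agent.H31.EST.starP_subset hCO h1 hSD b x h.1, fun S'' h2 => ?_⟩
  rw [(g_trans hCO h1 h2 (fun p hp => (hSD.pr p hp).1) b x).1]
  exact h.2 S'' (h2.trans h1)

theorem two_iff {k : ℕ} {S₁ S₂ : Finset ℕ} (hd : Disjoint S₁ S₂)
    (hS : ∀ p ∈ S₁ ∪ S₂, p.Prime) {V : Set (X k)} {Gd : ℕ → ℕ → Set (X k)} {kap : ℝ} {b : X k}
    {x : ℕ} : Two S₁ S₂ V Gd kap b x ↔
      Good S₁ V Gd kap (phi (DS (S₁ ∪ S₂) / DS S₁) (x % (DS (S₁ ∪ S₂) / DS S₁)) b)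
        (x / (DS (S₁ ∪ S₂) / DS S₁)) ∧
      Good S₂ V Gd kap (phi (DS (S₁ ∪ S₂) / DS S₂) (x % (DS (S₁ ∪ S₂) / DS S₂)) b)
        (x / (DS (S₁ ∪ S₂) / DS S₂)) := by
  have hp1 : 0 < DS S₁ := DS_pos fun p hp => hS p (Finset.mem_union_left _ hp)
  have hp2 : 0 < DS S₂ := DS_pos fun p hp => hS p (Finset.mem_union_right _ hp)
  have e1 : DS (S₁ ∪ S₂) / DS S₁ = DS S₂ := by
    rw [DS_un hd, Nat.mul_div_cancel_left _ hp1]
  have e2 : DS (S₁ ∪ S₂) / DS S₂ = DS S₁ := by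
    rw [DS_un hd, Nat.mul_div_cancel _ hp2]
  rw [e1, e2]
  exact Iff.rfl

theorem two_hered (hCO : L_CO) {k : ℕ} {S₁ S₂ S' : Finset ℕ} (hd : Disjoint S₁ S₂)
    (h1 : S' ⊆ S₁ ∪ S₂) {V : Set (X k)} {Ge : ℕ → Set (X k)} {Gd : ℕ → ℕ → Set (X k)}
    {P m τ Ω : ℝ} (hSD : SDatP k (S₁ ∪ S₂) V Ge Gd P m τ Ω) {kap : ℝ} {b : X k} {x : ℕ}
    (h : Two S₁ S₂ V Gd kap b x) :
    Two (S' ∩ S₁) (S' ∩ S₂) V Gd kap
      (phi (DS (S₁ ∪ S₂) / DS S') (x % (DS (S₁ ∪ S₂) / DS S')) b)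
      (x / (DS (S₁ ∪ S₂) / DS S')) := by
  have hS : ∀ p ∈ S₁ ∪ S₂, p.Prime := fun p hp => (hSD.pr p hp).1
  have eS : S' ∩ S₁ ∪ S' ∩ S₂ = S' := by
    rw [← Finset.inter_union_distrib_left, Finset.inter_eq_left.2 h1]
  have hd' : Disjoint (S' ∩ S₁) (S' ∩ S₂) :=
    Finset.disjoint_of_subset_left Finset.inter_subset_right
      (Finset.disjoint_of_subset_right Finset.inter_subset_right hd)
  rw [two_iff hd hS] at h
  rw [two_iff hd' (by rw [eS]; exact fun p hp => hS p (h1 hp)), eS]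
  have key : ∀ A : Finset ℕ, A ⊆ S₁ ∪ S₂ →
      Good A V Gd kap (phi (DS (S₁ ∪ S₂) / DS A) (x % (DS (S₁ ∪ S₂) / DS A)) b)
        (x / (DS (S₁ ∪ S₂) / DS A)) →
      Good (S' ∩ A) V Gd kap
        (phi (DS S' / DS (S' ∩ A)) ((x / (DS (S₁ ∪ S₂) / DS S')) % (DS S' / DS (S' ∩ A)))
          (phi (DS (S₁ ∪ S₂) / DS S') (x % (DS (S₁ ∪ S₂) / DS S')) b))
        (x / (DS (S₁ ∪ S₂) / DS S') / (DS S' / DS (S' ∩ A))) := by
    intro A hA hg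
    have h3 := good_hered hCO (S' := S' ∩ A) Finset.inter_subset_right
      (Pool.Agent.H31.EST.SDatP_mono hSD hA) hg
    obtain ⟨g1, g2⟩ := g_trans hCO hA (Finset.inter_subset_right : S' ∩ A ⊆ A) hS b x
    obtain ⟨g3, g4⟩ := g_trans hCO h1 (Finset.inter_subset_left : S' ∩ A ⊆ S') hS b x
    rw [g1, g2] at h3
    rw [g3, g4]
    exact h3
  exact ⟨key S₁ Finset.subset_union_left h.1, key S₂ Finset.subset_union_right h.2⟩

theorem pf_DBL (_hMP : T_MP) (hCO : L_CO) (hCOL : T_COL) (hMEA : T_MEA) (hMAS : T_MAS)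
    (hLON : T_LON) (hSPA : T_SPA) : T_DBL := by
  classical
  intro k Q V Ge Gd P m τ Ω kap kap' E hD hkap hkap' S₁ hS₁ S₂ hS₂ hdis hPM
  have hU : S₁ ∪ S₂ ⊆ Q := Finset.union_subset hS₁ hS₂
  have hSU : SDatP k (S₁ ∪ S₂) V Ge Gd P m τ Ω := Pool.Agent.H31.EST.SDatP_mono hD.dat hU
  have hMASU := (hMAS k Q V Ge Gd P m τ Ω hD (S₁ ∪ S₂) hU).2.2
  obtain ⟨T, hT⟩ : ∃ T : Finset ℕ → X k → ℕ → Prop, T = fun S' b x =>
    Two (S' ∩ S₁) (S' ∩ S₂) V Gd kap b x ∧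
      den (S' ∩ S₁ ∪ S' ∩ S₂) V Gd b < kap' ^ 2 / 2 := ⟨_, rfl⟩
  have hTi : ∀ S' b x, T S' b x ↔ Two (S' ∩ S₁) (S' ∩ S₂) V Gd kap b x ∧
      den (S' ∩ S₁ ∪ S' ∩ S₂) V Gd b < kap' ^ 2 / 2 := by
    intro S' b x
    rw [hT]
  have h1 : mass k (DS (S₁ ∪ S₂)) (fun b x => Two S₁ S₂ V Gd kap b x) ≤
      mass k (DS (S₁ ∪ S₂)) (fun b x => Good (S₁ ∪ S₂) V Gd (kap' ^ 2 / 2) b x) +
      mass k (DS (S₁ ∪ S₂)) (fun b x => ∃ S' ∈ (S₁ ∪ S₂).powerset,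
        StarP (S₁ ∪ S₂) V Gd b x ∧
        T S' (phi (DS (S₁ ∪ S₂) / DS S') (x % (DS (S₁ ∪ S₂) / DS S')) b)
          (x / (DS (S₁ ∪ S₂) / DS S'))) := by
    refine mass_or fun x hx b hb => ?_
    by_cases hg : Good (S₁ ∪ S₂) V Gd (kap' ^ 2 / 2) b x
    · exact Or.inl hg
    · right
      have hst : StarP (S₁ ∪ S₂) V Gd b x :=
        ((hCOL k S₁ S₂ V Ge Gd P m τ Ω hdis hSU).1 x b).2 ⟨hb.1.1, hb.2.1⟩
      have h2 : ∃ S' ⊆ S₁ ∪ S₂, den S' V Gd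
          (phi (DS (S₁ ∪ S₂) / DS S') (x % (DS (S₁ ∪ S₂) / DS S')) b) < kap' ^ 2 / 2 := by
        by_contra hcon
        push Not at hcon
        exact hg ⟨hst, hcon⟩
      obtain ⟨S', hS', hlt⟩ := h2
      refine ⟨S', Finset.mem_powerset.2 hS', hst, ?_⟩
      rw [hTi]
      refine ⟨two_hered hCO hdis hS' hSU hb, ?_⟩
      have eS : S' ∩ S₁ ∪ S' ∩ S₂ = S' := by
        rw [← Finset.inter_union_distrib_left, Finset.inter_eq_left.2 hS']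
      rw [eS]
      exact hlt
  have h2 : mass k (DS (S₁ ∪ S₂)) (fun b x => ∃ S' ∈ (S₁ ∪ S₂).powerset,
        StarP (S₁ ∪ S₂) V Gd b x ∧
        T S' (phi (DS (S₁ ∪ S₂) / DS S') (x % (DS (S₁ ∪ S₂) / DS S')) b)
          (x / (DS (S₁ ∪ S₂) / DS S'))) ≤ ∑ S' ∈ (S₁ ∪ S₂).powerset,
      mass k (DS (S₁ ∪ S₂)) (fun b x => StarP (S₁ ∪ S₂) V Gd b x ∧
        T S' (phi (DS (S₁ ∪ S₂) / DS S') (x % (DS (S₁ ∪ S₂) / DS S')) b)
          (x / (DS (S₁ ∪ S₂) / DS S'))) :=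
    mass_ex _ fun x _ b hb => hb
  have h3 : ∀ S' ∈ (S₁ ∪ S₂).powerset,
      mass k (DS (S₁ ∪ S₂)) (fun b x => StarP (S₁ ∪ S₂) V Gd b x ∧
        T S' (phi (DS (S₁ ∪ S₂) / DS S') (x % (DS (S₁ ∪ S₂) / DS S')) b)
          (x / (DS (S₁ ∪ S₂) / DS S'))) ≤ 8 * kap' / kap * Ω + 4 * E / kap' := by
    intro S' hS'
    have hS' := Finset.mem_powerset.1 hS'
    have eS : S' ∩ S₁ ∪ S' ∩ S₂ = S' := by
      rw [← Finset.inter_union_distrib_left, Finset.inter_eq_left.2 hS']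
    have hd' : Disjoint (S' ∩ S₁) (S' ∩ S₂) :=
      Finset.disjoint_of_subset_left Finset.inter_subset_right
        (Finset.disjoint_of_subset_right Finset.inter_subset_right hdis)
    have hSS : SDatP k (S' ∩ S₁ ∪ S' ∩ S₂) V Ge Gd P m τ Ω := by
      rw [eS]
      exact Pool.Agent.H31.EST.SDatP_mono hSU hS'
    have hSS2 : SDatP k ((S' ∩ S₁ ∪ S' ∩ S₂) ∪ ∅) V Ge Gd P m τ Ω := by
      rw [Finset.union_empty]
      exact hSS
    have hme : ∀ x, MeasurableSet {b : X k | T S' b x} := by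
      intro x
      have g1 := (hMEA k (S' ∩ S₁) (S' ∩ S₂) V Ge Gd P m τ Ω hSS).2.2.2.1 kap x
      have g2 := (hMEA k (S' ∩ S₁ ∪ S' ∩ S₂) ∅ V Ge Gd P m τ Ω hSS2).2.1
      have g3 : {b : X k | T S' b x} = {b : X k | Two (S' ∩ S₁) (S' ∩ S₂) V Gd kap b x} ∩
          {b : X k | den (S' ∩ S₁ ∪ S' ∩ S₂) V Gd b < kap' ^ 2 / 2} := by
        ext b
        exact hTi S' b x
      rw [g3]
      exact g1.inter (measurableSet_lt g2 measurable_const)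
    have g4 := hMASU S' hS' (T S') hme
    have g5 := hSPA k (S' ∩ S₁) (S' ∩ S₂) V Ge Gd P m τ Ω kap kap' hd' hSS hkap'
    have g6 : mass k (DS S') (T S') ≤
        2 * (mass k (DS (S' ∩ S₁ ∪ S' ∩ S₂))
            (fun b x => Light (S' ∩ S₁) (S' ∩ S₂) V Gd kap kap' b x) +
          mass k (DS (S' ∩ S₂ ∪ S' ∩ S₁))
            (fun b x => Light (S' ∩ S₂) (S' ∩ S₁) V Gd kap kap' b x)) := by
      have e1 : mass k (DS S') (T S') = mass k (DS (S' ∩ S₁ ∪ S' ∩ S₂)) (fun b x =>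
          Two (S' ∩ S₁) (S' ∩ S₂) V Gd kap b x ∧
            den (S' ∩ S₁ ∪ S' ∩ S₂) V Gd b < kap' ^ 2 / 2) := by
        have e3 : DS S' = DS (S' ∩ S₁ ∪ S' ∩ S₂) := by rw [eS]
        rw [hT, e3]
      rw [e1]
      exact g5
    have hq1 : S' ∩ S₁ ⊆ Q := Finset.inter_subset_right.trans hS₁
    have hq2 : S' ∩ S₂ ⊆ Q := Finset.inter_subset_right.trans hS₂
    have g7 := hLON k Q V Ge Gd P m τ Ω kap kap' hD hkap hkap' _ hq1 _ hq2 hd'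
    have g8 := hLON k Q V Ge Gd P m τ Ω kap kap' hD hkap hkap' _ hq2 _ hq1 hd'.symm
    obtain ⟨p1, p2⟩ := hPM (S' ∩ S₁) Finset.inter_subset_right (S' ∩ S₂)
      Finset.inter_subset_right
    have p3 : PM k (S' ∩ S₁) (S' ∩ S₂) V Gd / kap' ≤ E / kap' :=
      div_le_div_of_nonneg_right p1 hkap'.le
    have p4 : PM k (S' ∩ S₂) (S' ∩ S₁) V Gd / kap' ≤ E / kap' :=
      div_le_div_of_nonneg_right p2 hkap'.le
    have e2 : 8 * kap' / kap * Ω + 4 * E / kap' =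
        2 * ((2 * kap' / kap * Ω + E / kap') + (2 * kap' / kap * Ω + E / kap')) := by ring
    rw [e2]
    linarith
  refine h1.trans (add_le_add le_rfl (h2.trans ((Finset.sum_le_sum h3).trans (le_of_eq ?_))))
  rw [Finset.sum_const, Finset.card_powerset, nsmul_eq_mul, Finset.card_union_of_disjoint hdis]
  push_cast
  ring

end Pool.Agent.H85.EH
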