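import Pool.Agent.H31.EH.Targets
import Pool.Agent.H31.EST.RIP
import Pool.Agent.H59.ES.PLP
import Pool.Agent.H8.EST.LCP

/-!
# Row PMB of ehf_modules (MP_e21eee_nt): one prime against one prime
-/

set_option autoImplicit false

open Finset MeasureTheory

namespace Pool.Agent.H85.EH

open Pool.Agent.H24.CL Pool.Agent.H24.LV Pool.Agent.H26.ES Pool.Agent.H31.EH

theorem DS_single (p : ℕ) : DS {p} = p := by
  unfold DS
  exact Finset.prod_singleton _ _

theorem DS_pair {p q : ℕ} (h : p ≠ q) : DS ({p} ∪ {q}) = p * q := by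
  unfold DS
  rw [Finset.prod_union (by simpa using h), Finset.prod_singleton, Finset.prod_singleton]

/-- the crossings of a star over two primes -/
theorem star_pair (hCO : L_CO) {k p q : ℕ} (hpq : p ≠ q) (hp : p.Prime) (hq : q.Prime)
    {V : Set (X k)} {Gd : ℕ → ℕ → Set (X k)} {b κ : X k} {y z : ℕ} (hy : y < p)
    (hκ : κ ∈ Kr k p y) (h : StarP ({p} ∪ {q}) V Gd (b + κ) (y + p * z)) :
    Pool.Agent.H8.EST.CrP q V (Gd p) (phi p y b) p y z (b + κ) ∧ phi p y b ∈ Gd q z := by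
  have hk0 : phi p y (b + κ) = phi p y b := by
    rw [map_add, ((hCO.2.2.2.1 k p y hp.one_le).2 κ).1 hκ, add_zero]
  obtain ⟨h1, h2⟩ := h
  have h3 := h2 p (by simp)
  have h4 := h2 q (by simp)
  rw [DS_pair hpq] at h1 h3 h4
  rw [Nat.mul_div_cancel_left _ hp.pos] at h3
  rw [Nat.mul_div_cancel _ hq.pos, Nat.add_mul_mod_self_left, Nat.mod_eq_of_lt hy, hk0,
    Nat.add_mul_div_left _ _ hp.pos, Nat.div_eq_of_lt hy, zero_add] at h4
  refine ⟨⟨?_, h3⟩, h4⟩
  rw [← hk0, hCO.1, Nat.mul_comm q p]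
  exact h1

open Classical in
/-- the pairs of directions over a `q`-line -/
theorem DP_le (hCO : L_CO) (hCOL : T_COL) {k : ℕ} {Q : Finset ℕ} {V : Set (X k)}
    {Ge : ℕ → Set (X k)} {Gd : ℕ → ℕ → Set (X k)} {P m τ Ω : ℝ} (hSD : SDatP k Q V Ge Gd P m τ Ω)
    {p q : ℕ} (hp : p ∈ Q) (hq : q ∈ Q) (hpq : p ≠ q) (b : X k) {y : ℕ} (hy : y < p) :
    (p : ℝ) ^ (2 * k) * DP {p} {q} V Gd b y ≤ (q : ℝ) ^ 2 * difP p q V (Gd p) b y := by
  have hpp := (hSD.pr p hp).1
  have hqp := (hSD.pr q hq).1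
  have hsub : ({p} ∪ {q} : Finset ℕ) ⊆ Q := by
    intro r hr
    rcases Finset.mem_union.1 hr with h | h
    · rw [Finset.mem_singleton.1 h]
      exact hp
    · rw [Finset.mem_singleton.1 h]
      exact hq
  have hSD2 := Pool.Agent.H31.EST.SDatP_mono hSD hsub
  have hcol := (hCOL k {p} {q} V Ge Gd P m τ Ω (by simpa using hpq) hSD2).2.1
  rw [DS_single, DS_single] at hcol
  set Z := (range q).filter (fun z => ∃ κ ∈ Kr k p y,
    StarP ({p} ∪ {q}) V Gd (b + κ) (y + p * z)) with hZ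
  have hZq : Z ⊆ range q := Finset.filter_subset _ _
  have hex : ∀ z, ∃ κ, z ∈ Z → κ ∈ Kr k p y ∧ StarP ({p} ∪ {q}) V Gd (b + κ) (y + p * z) := by
    intro z
    by_cases hz : z ∈ Z
    · obtain ⟨κ, h1, h2⟩ := (Finset.mem_filter.1 hz).2
      exact ⟨κ, fun _ => ⟨h1, h2⟩⟩
    · exact ⟨0, fun h => absurd h hz⟩
  choose s hs using hex
  have h1 := Pool.Agent.H8.EST.pairs_le hCO (k := k) (p := p) (q := q) (w := y) hpp.one_le
    hqp.pos (V := V) (G := Gd p) (fun v => hSD.inv p hp v) (bb := b) (c := phi p y b) rfl Z hZq s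
    (fun z hz => (hs z hz).1)
    (fun z hz => (star_pair hCO hpq hpp hqp hy (hs z hz).1 (hs z hz).2).1)
  refine le_trans (mul_le_mul_of_nonneg_left ?_ (by positivity)) h1
  unfold DP
  refine Nat.cast_le.2 (Finset.card_le_card ?_)
  intro t ht
  rw [DS_single, DS_single, Finset.mem_filter, Finset.mem_product] at ht
  obtain ⟨⟨ht1, ht2⟩, κ, hκ, κ', hκ', hne, hs1, hs2⟩ := ht
  have hz1 : t.1 ∈ Z := Finset.mem_filter.2 ⟨ht1, κ, hκ, hs1⟩
  have hz2 : t.2 ∈ Z := Finset.mem_filter.2 ⟨ht2, κ', hκ', hs2⟩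
  refine Finset.mem_filter.2 ⟨Finset.mem_product.2 ⟨hz1, hz2⟩, fun hcon => hne ?_⟩
  have e1 := hcol y hy t.1 (Finset.mem_range.1 ht1) b κ hκ (s t.1) (hs _ hz1).1 hs1
    (hs _ hz1).2
  have e2 := hcol y hy t.2 (Finset.mem_range.1 ht2) b κ' hκ' (s t.2) (hs _ hz2).1 hs2
    (hs _ hz2).2
  have e3 : κ - κ' = (κ - s t.1) + (s t.1 - s t.2) - (κ' - s t.2) := by abel
  rw [e3]
  exact sub_mem (add_mem e1 hcon) e2

open Classical in
theorem DP_sq {k : ℕ} (S₁ S₂ : Finset ℕ) (V : Set (X k)) (Gd : ℕ → ℕ → Set (X k)) (b : X k)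
    (y : ℕ) : 0 ≤ DP S₁ S₂ V Gd b y ∧ DP S₁ S₂ V Gd b y ≤ (DS S₂ : ℝ) ^ 2 := by
  unfold DP
  refine ⟨Nat.cast_nonneg _, ?_⟩
  have h1 := Finset.card_filter_le (range (DS S₂) ×ˢ range (DS S₂)) (fun z => ∃ κ ∈ Kr k (DS S₁) y,
    ∃ κ' ∈ Kr k (DS S₁) y, κ - κ' ∉ H k (DS S₁) 1 ∧
      StarP (S₁ ∪ S₂) V Gd (b + κ) (y + DS S₁ * z.1) ∧
      StarP (S₁ ∪ S₂) V Gd (b + κ') (y + DS S₁ * z.2))
  rw [Finset.card_product, Finset.card_range] at h1
  rw [sq]
  exact_mod_cast h1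

theorem pf_PMB (_hMP : T_MP) (hCO : L_CO) (hPLP : T_PLP) (hCOL : T_COL) (_hMEA : T_MEA) :
    T_PMB := by
  classical
  intro k hk
  obtain ⟨C, hC, hPL⟩ := hPLP k hk
  refine ⟨C, hC, ?_⟩
  intro Q V Ge Gd P m τ Ω kap hSD hkap hkap1 p hp q hq hpq
  have hpp := (hSD.pr p hp).1
  have hqp := (hSD.pr q hq).1
  have hp1 : 1 ≤ p := hpp.pos
  have hq1 : 1 ≤ q := hqp.pos
  have hp0 : (0 : ℝ) < p := by exact_mod_cast hp1
  have hq0 : (0 : ℝ) < q := by exact_mod_cast hq1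
  have hPLb := hPL Q V Ge Gd P m τ Ω kap hSD hkap hkap1 p hp q hq hpq
  have hms := hSD.ms q hq
  obtain ⟨A, hA⟩ : ∃ A : ℕ → Set (X k), A = fun y =>
    {b : X k | phi p y b ∈ Ge q ∧ BadP p q V (Gd p) kap b y} := ⟨_, rfl⟩
  obtain ⟨B, hB⟩ : ∃ B : ℕ → Set (X k), B = fun y => {b : X k | phi p y b ∈ Ge q} := ⟨_, rfl⟩
  have hAm : ∀ y, MeasurableSet (A y) := by
    intro y
    rw [hA]
    exact ((Pool.Agent.H60.LVP.phiM p y hp1) (hSD.mE q hq)).inter
      (Pool.Agent.H59.ES.meas_BadP Pool.Agent.H60.LVP.phiM hp1 hq1 hSD.mV (hSD.mG p hp) kap y)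
  have hBm : ∀ y, MeasurableSet (B y) := by
    intro y
    rw [hB]
    exact (Pool.Agent.H60.LVP.phiM p y hp1) (hSD.mE q hq)
  have hmA : ∀ y b, b ∈ A y ↔ phi p y b ∈ Ge q ∧ BadP p q V (Gd p) kap b y := by
    intro y b; rw [hA]; exact Iff.rfl
  have hmB : ∀ y b, b ∈ B y ↔ phi p y b ∈ Ge q := by
    intro y b; rw [hB]; exact Iff.rfl
  have hBv : ∀ y, volume.real (B y) = volume.real (Ge q) := by
    intro y
    rw [hB]
    exact Pool.Agent.H60.LVP.vol_phi p y hp1 (hSD.mE q hq)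
  have hpt : ∀ y < p, ∀ b : X k, DP {p} {q} V Gd b y / (q : ℝ) ^ 2 ≤
      (A y).indicator (fun _ => (1 : ℝ)) b + (B y).indicator (fun _ => kap ^ 2) b := by
    intro y hy b
    have hr0 : 0 ≤ (A y).indicator (fun _ => (1 : ℝ)) b :=
      Set.indicator_nonneg (fun _ _ => zero_le_one) b
    have hr1 : 0 ≤ (B y).indicator (fun _ => kap ^ 2) b :=
      Set.indicator_nonneg (fun _ _ => by positivity) b
    obtain ⟨h0, h1⟩ := DP_sq {p} {q} V Gd b y
    rw [DS_single] at h1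
    by_cases hE : phi p y b ∈ Ge q
    · have hbB : b ∈ B y := (hmB y b).2 hE
      by_cases hbad : BadP p q V (Gd p) kap b y
      · have hbA : b ∈ A y := (hmA y b).2 ⟨hE, hbad⟩
        rw [Set.indicator_of_mem hbA]
        have : DP {p} {q} V Gd b y / (q : ℝ) ^ 2 ≤ 1 := by
          rw [div_le_one (by positivity)]
          exact h1
        linarith
      · rw [Set.indicator_of_mem hbB]
        unfold BadP at hbad
        push Not at hbad
        have h2 := DP_le hCO hCOL hSD hp hq hpq b hy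
        have h3 : (p : ℝ) ^ (2 * k) * DP {p} {q} V Gd b y ≤
            (q : ℝ) ^ 2 * (kap ^ 2 * (p : ℝ) ^ (2 * k)) :=
          h2.trans (mul_le_mul_of_nonneg_left hbad.le (by positivity))
        have h4 : (0 : ℝ) < (p : ℝ) ^ (2 * k) := by positivity
        have h5 : DP {p} {q} V Gd b y ≤ kap ^ 2 * (q : ℝ) ^ 2 := by
          refine le_of_mul_le_mul_left ?_ h4
          calc _ ≤ (q : ℝ) ^ 2 * (kap ^ 2 * (p : ℝ) ^ (2 * k)) := h3
            _ = _ := by ring
        have h6 : DP {p} {q} V Gd b y / (q : ℝ) ^ 2 ≤ kap ^ 2 := by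
          rw [div_le_iff₀ (by positivity)]
          exact h5
        linarith
    · have h2 : DP {p} {q} V Gd b y = 0 := by
        unfold DP
        rw [Nat.cast_eq_zero, Finset.card_eq_zero, Finset.filter_eq_empty_iff]
        rintro t - ⟨κ, hκ, κ', -, -, hs, -⟩
        rw [DS_single] at hκ hs
        have := (star_pair hCO hpq hpp hqp hy hκ hs).2
        exact hE (hSD.sub q hq _ this)
      rw [h2, zero_div]
      linarith
  have hint : ∀ y < p, ∫ b : X k, DP {p} {q} V Gd b y / (q : ℝ) ^ 2 ≤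
      volume.real (A y) + kap ^ 2 * volume.real (Ge q) := by
    intro y hy
    have hi1 : Integrable (fun b : X k => (A y).indicator (fun _ => (1 : ℝ)) b) volume :=
      (integrable_const (1 : ℝ)).indicator (hAm y)
    have hi2 : Integrable (fun b : X k => (B y).indicator (fun _ => kap ^ 2) b) volume :=
      (integrable_const (kap ^ 2)).indicator (hBm y)
    have h1 : ∫ b : X k, DP {p} {q} V Gd b y / (q : ℝ) ^ 2 ≤
        ∫ b : X k, ((A y).indicator (fun _ => (1 : ℝ)) b +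
          (B y).indicator (fun _ => kap ^ 2) b) := by
      refine integral_mono_of_nonneg (Filter.Eventually.of_forall fun b => ?_) (hi1.add hi2)
        (Filter.Eventually.of_forall fun b => hpt y hy b)
      exact div_nonneg (DP_sq {p} {q} V Gd b y).1 (by positivity)
    rw [integral_add hi1 hi2, integral_indicator_const _ (hAm y),
      integral_indicator_const _ (hBm y), hBv y] at h1
    refine h1.trans (le_of_eq ?_)
    rw [smul_eq_mul, smul_eq_mul, mul_one, mul_comm (kap ^ 2)]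
  unfold PM
  rw [DS_single, DS_single]
  have h1 : ∑ y ∈ range p, ∫ b : X k, DP {p} {q} V Gd b y / (q : ℝ) ^ 2 ≤
      ∑ y ∈ range p, volume.real (A y) + p * (kap ^ 2 * volume.real (Ge q)) := by
    refine (Finset.sum_le_sum fun y hy => hint y (Finset.mem_range.1 hy)).trans (le_of_eq ?_)
    rw [Finset.sum_add_distrib, Finset.sum_const, Finset.card_range, nsmul_eq_mul]
  have hAv : ∑ y ∈ range p, volume.real {b : X k | phi p y b ∈ Ge q ∧
      BadP p q V (Gd p) kap b y} = ∑ y ∈ range p, volume.real (A y) := by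
    rw [hA]
  rw [hAv] at hPLb
  calc (q : ℝ) ^ (KN k - k) * (1 / (p : ℝ) * ∑ y ∈ range p,
        ∫ b : X k, DP {p} {q} V Gd b y / (q : ℝ) ^ 2)
      ≤ (q : ℝ) ^ (KN k - k) * (1 / (p : ℝ) * (∑ y ∈ range p, volume.real (A y) +
          p * (kap ^ 2 * volume.real (Ge q)))) := by
        apply mul_le_mul_of_nonneg_left _ (by positivity)
        exact mul_le_mul_of_nonneg_left h1 (by positivity)
    _ = (q : ℝ) ^ (KN k - k) * (1 / (p : ℝ) * ∑ y ∈ range p, volume.real (A y)) +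
          kap ^ 2 * ((q : ℝ) ^ (KN k - k) * volume.real (Ge q)) := by
        field_simp
    _ ≤ C * m ^ 3 / (kap ^ 3 * P) * Ω + kap ^ 2 * Ω :=
        add_le_add hPLb (mul_le_mul_of_nonneg_left hms (by positivity))
    _ = _ := by ring

end Pool.Agent.H85.EH
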