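import Pool.Agent.H90.EH.Targets

set_option autoImplicit false

namespace Pool.Agent.H85.EH.CYP

open Finset Pool.Agent.H90.EH
open scoped Classical

/-- a root of a primitive root -/
lemma prim_of_pow {p : ℕ} (hp : p.Prime) {l s : ℕ} (hsl : s < l) {z : ℂ}
    (h : IsPrimitiveRoot (z ^ p ^ s) (p ^ (l - s))) : IsPrimitiveRoot z (p ^ l) := by
  have : Fact p.Prime := ⟨hp⟩
  obtain ⟨j, rfl⟩ : ∃ j, l = j + 1 := ⟨l - 1, by omega⟩
  have h1 : ¬ z ^ p ^ j = 1 := by
    intro h1
    have h2 : (z ^ p ^ s) ^ p ^ (j - s) = 1 := by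
      rw [← pow_mul, ← pow_add, Nat.add_sub_cancel' (by omega), h1]
    have h3 := h.dvd_of_pow_eq_one _ h2
    have h4 := (Nat.pow_dvd_pow_iff_le_right hp.one_lt).1 h3
    omega
  have h2 : z ^ p ^ (j + 1) = 1 := by
    have h3 := h.pow_eq_one
    rw [← pow_mul, ← pow_add, Nat.add_sub_cancel' (by omega)] at h3
    exact h3
  rw [IsPrimitiveRoot.iff_orderOf]
  exact orderOf_eq_prime_pow h1 h2

lemma prod_lt {p : ℕ} (hp : p.Prime) {l s : ℕ} (hsl : s < l) :
    ∏ z ∈ primitiveRoots (p ^ l) ℂ, (Polynomial.X - Polynomial.C (z ^ p ^ s)) =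
      Polynomial.cyclotomic (p ^ (l - s)) ℂ ^ p ^ s := by
  have hpl : 0 < p ^ l := pow_pos hp.pos l
  have hpls : 0 < p ^ (l - s) := pow_pos hp.pos _
  have hps : 0 < p ^ s := pow_pos hp.pos _
  have hmaps : ∀ z ∈ primitiveRoots (p ^ l) ℂ, z ^ p ^ s ∈ primitiveRoots (p ^ (l - s)) ℂ := by
    intro z hz
    rw [mem_primitiveRoots hpl] at hz
    rw [mem_primitiveRoots hpls]
    exact hz.pow hpl (by rw [← pow_add, Nat.add_sub_cancel' hsl.le])
  rw [← Finset.prod_fiberwise_of_maps_to hmaps,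
    Polynomial.cyclotomic_eq_prod_X_sub_primitiveRoots
      (Complex.isPrimitiveRoot_exp (p ^ (l - s)) hpls.ne'), ← Finset.prod_pow]
  refine Finset.prod_congr rfl fun w hw => ?_
  rw [mem_primitiveRoots hpls] at hw
  have hw0 : w ≠ 0 := hw.ne_zero hpls.ne'
  have h1 : ∀ z ∈ (primitiveRoots (p ^ l) ℂ).filter (fun z => z ^ p ^ s = w),
      (Polynomial.X - Polynomial.C (z ^ p ^ s) : Polynomial ℂ) =
        Polynomial.X - Polynomial.C w := by
    intro z hz
    rw [(Finset.mem_filter.1 hz).2]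
  rw [Finset.prod_congr rfl h1, Finset.prod_const]
  congr 1
  have hprim := Complex.isPrimitiveRoot_exp (p ^ s) hps.ne'
  have h2 : (primitiveRoots (p ^ l) ℂ).filter (fun z => z ^ p ^ s = w) =
      (Polynomial.nthRoots (p ^ s) w).toFinset := by
    ext z
    rw [Finset.mem_filter, Multiset.mem_toFinset, Polynomial.mem_nthRoots hps,
      mem_primitiveRoots hpl]
    constructor
    · rintro ⟨-, h⟩; exact h
    · intro h
      refine ⟨prim_of_pow hp hsl ?_, h⟩
      rw [h]; exact hw
  rw [h2, Multiset.toFinset_card_of_nodup (hprim.nthRoots_nodup hw0), hprim.card_nthRoots]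
  rw [if_pos]
  exact IsAlgClosed.exists_pow_nat_eq w hps

lemma prod_ge {p : ℕ} (hp : p.Prime) {l s : ℕ} (hsl : l ≤ s) :
    ∏ z ∈ primitiveRoots (p ^ l) ℂ, (Polynomial.X - Polynomial.C (z ^ p ^ s)) =
      (Polynomial.X - 1) ^ (p ^ l).totient := by
  have hpl : 0 < p ^ l := pow_pos hp.pos l
  have h1 : ∀ z ∈ primitiveRoots (p ^ l) ℂ,
      (Polynomial.X - Polynomial.C (z ^ p ^ s) : Polynomial ℂ) = Polynomial.X - 1 := by
    intro z hz
    rw [mem_primitiveRoots hpl] at hz
    have : z ^ p ^ s = 1 := by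
      rw [← Nat.add_sub_cancel' hsl, pow_add, pow_mul, hz.pow_eq_one, one_pow]
    rw [this, Polynomial.C_1]
  rw [Finset.prod_congr rfl h1, Finset.prod_const, Complex.card_primitiveRoots]

theorem pf_CYP (h1 : T_CPW) : T_CYP := by
  intro ι _ _ M p r n hp hM s hs
  set f : ℤ →+* ℂ := Int.castRingHom ℂ with hf
  have hinj : Function.Injective (Polynomial.map f) :=
    Polynomial.map_injective f Int.cast_injective
  apply hinj
  have hroots : (M.map f).charpoly.roots =
      ∑ l ∈ range (r + 1), n l • (primitiveRoots (p ^ l) ℂ).val := by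
    rw [Matrix.charpoly_map, hM, Polynomial.map_prod]
    simp only [Polynomial.map_pow, Polynomial.map_cyclotomic]
    rw [Polynomial.roots_prod]
    · rw [Multiset.bind, Multiset.join]
      simp only [Polynomial.roots_pow]
      refine Finset.sum_congr rfl fun l _ => ?_
      have : NeZero ((p ^ l : ℕ) : ℂ) := ⟨by exact_mod_cast (pow_pos hp.pos l).ne'⟩
      rw [Polynomial.cyclotomic.roots_eq_primitiveRoots_val]
    · rw [Finset.prod_ne_zero_iff]
      intro l _
      exact pow_ne_zero _ (Polynomial.cyclotomic_ne_zero _ ℂ)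
  have hpow : (M ^ p ^ s).map f = (M.map f) ^ p ^ s := by
    exact map_pow f.mapMatrix M (p ^ s)
  have hL : Polynomial.map f (M ^ p ^ s).charpoly =
      ∏ l ∈ range (r + 1), (∏ z ∈ primitiveRoots (p ^ l) ℂ,
        (Polynomial.X - Polynomial.C (z ^ p ^ s))) ^ n l := by
    rw [← Matrix.charpoly_map, hpow]
    rw [(IsAlgClosed.splits ((M.map f) ^ p ^ s).charpoly).eq_prod_roots_of_monic
      (Matrix.charpoly_monic _)]
    rw [h1 ι (M.map f) (p ^ s) (pow_pos hp.pos s), Multiset.map_map, hroots]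
    have h2 : ∀ t : Multiset ℂ, (Multiset.map ((fun a => Polynomial.X - Polynomial.C a) ∘
        fun z => z ^ p ^ s) t) = Multiset.mapAddMonoidHom ((fun a => Polynomial.X -
          Polynomial.C a) ∘ fun z : ℂ => z ^ p ^ s) t := fun t => rfl
    rw [h2, map_sum, Multiset.prod_sum]
    refine Finset.prod_congr rfl fun l _ => ?_
    rw [map_nsmul, Multiset.prod_nsmul]
    rfl
  rw [hL]
  have hsplit : range (r + 1) = range (s + 1) ∪ Ioc s r := by
    ext l
    simp only [mem_range, mem_union, mem_Ioc]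
    omega
  have hdisj : Disjoint (range (s + 1)) (Ioc s r) := by
    rw [Finset.disjoint_left]
    intro l hl hl'
    simp only [mem_range, mem_Ioc] at hl hl'
    omega
  rw [hsplit, Finset.prod_union hdisj]
  simp only [es, Dp, Polynomial.map_mul, Polynomial.map_pow, Polynomial.map_prod,
    Polynomial.map_sub, Polynomial.map_X, Polynomial.map_one, Polynomial.map_cyclotomic]
  congr 1
  · rw [← Finset.prod_pow_eq_pow_sum]
    refine Finset.prod_congr rfl fun l hl => ?_
    rw [mem_range] at hl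
    rw [prod_ge hp (by omega), ← pow_mul, mul_comm]
  · refine Finset.prod_congr rfl fun l hl => ?_
    rw [mem_Ioc] at hl
    rw [prod_lt hp hl.1, ← pow_mul]

end Pool.Agent.H85.EH.CYP
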