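import Pool.Agent.H90.EH.Targets

set_option autoImplicit false

namespace Pool.Agent.H85.EH

open Finset Pool.Agent.H90.EH
open scoped Classical

theorem pf_SUM (h1 : T_HOE) (h2 : T_HOU) (h3 : T_BOX) (h4 : T_CRD) : T_SUM := by
  intro V _ _ Λ ht A w q hLF hGW hq hGQ
  have hA1 : ∀ a ∈ A, ht a = 1 := fun a ha => (hLF.1 a ha).2
  have hTri : ∀ B ∈ Tri A w, IsB A B := fun B hB => (Finset.mem_filter.1 hB).2.1
  have hcone : ∀ y, y ∈ Cone A ↔ ∃ B ∈ Tri A w, y ∈ HO B q := h1 V A w ht q hA1 hGW hq hGQ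
  have hfin : ∀ B ∈ Tri A w, ∀ m : ℕ,
      {x | x ∈ HO B q ∧ x ∈ Λ ∧ ht x = (m : ℚ)}.Finite := by
    intro B hB m
    refine (hLF.2 m).subset ?_
    rintro x ⟨hx1, hx2⟩
    exact ⟨(hcone x).2 ⟨B, hB, hx1⟩, hx2⟩
  have hcnt : ∀ m : ℕ, cnt Λ ht (Cone A) m = ∑ B ∈ Tri A w, cnt Λ ht (HO B q) m := by
    intro m
    unfold cnt
    have hU : {x | x ∈ Cone A ∧ x ∈ Λ ∧ ht x = (m : ℚ)} =
        ⋃ B ∈ (↑(Tri A w) : Set (Finset V)), {x | x ∈ HO B q ∧ x ∈ Λ ∧ ht x = (m : ℚ)} := by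
      ext x
      simp only [Set.mem_iUnion, Finset.mem_coe]
      constructor
      · rintro ⟨hx1, hx2⟩
        obtain ⟨B, hB, hxB⟩ := (hcone x).1 hx1
        exact ⟨B, hB, hxB, hx2⟩
      · rintro ⟨B, hB, hxB, hx2⟩
        exact ⟨(hcone x).2 ⟨B, hB, hxB⟩, hx2⟩
    rw [hU, Set.Finite.ncard_biUnion (Finset.finite_toSet _) (fun B hB => hfin B hB m)]
    · rw [finsum_mem_coe_finset]
    · intro B hB B' hB' hne
      rw [Function.onFun, Set.disjoint_left]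
      rintro x ⟨hx, -⟩ ⟨hx', -⟩
      exact hne (h2 V A w q x B B' hGQ hB hB' hx hx')
  have hser : ser Λ ht (Cone A) = ∑ B ∈ Tri A w, ser Λ ht (HO B q) := by
    ext m
    rw [map_sum]
    simp only [ser, PowerSeries.coeff_mk]
    rw [hcnt m]
    push_cast
    rfl
  unfold hs
  rw [hser, Finset.mul_sum]
  refine Finset.sum_congr rfl fun B hB => ?_
  have hB' := hTri B hB
  rw [← h4 V A B hB']
  refine h3 V Λ ht B q hB'.2.1 (fun b hb => hLF.1 b (hB'.1 hb)) ?_ (hGQ.2 B hB') (hfin B hB)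
  rw [← hB'.sp]
  exact hGQ.1

end Pool.Agent.H85.EH
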